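import Pool.Agent.helper37.L5.Spec

/-!
# Row IHN5: the induction hypothesis
-/

set_option autoImplicit false

namespace Pool.Agent.L5

open Pool.Agent.helper58.DC Pool.Agent.DI Pool.Agent.GR Pool.Agent.OB Pool.Agent.DR Pool.Agent.FI Pool.Agent.FI3 Pool.Agent.FI4 Pool.Agent.FI4I Pool.Agent.LE

theorem IHN5_inf {G : Type} [Group G] (N K : Subgroup G) : K.subgroupOf N = (N ⊓ K).subgroupOf N := by
  ext y
  simp only [Subgroup.mem_subgroupOf, Subgroup.mem_inf]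
  exact ⟨fun h => ⟨y.2, h⟩, fun h => h.2⟩

theorem IHN5 (hRTN : RTN_stmt) (hHRN : HRN_stmt) (hHRC : HRC_stmt) (hBKV : BKV_stmt) (hEXB : EXB_stmt)
    (hTRE : TRE_stmt) (hTR3 : TR3_stmt) (hECN : ECN_stmt) (hFEQ : FEQ_stmt) (_hFSI : FSI_stmt) : IHN5_stmt := by
  intro p M hS H hH G _ _ D x θ χ rt hyp c Q N mid IH g hQ
  obtain ⟨hDN, hczN, _, _⟩ := hBKV p M hS G D x θ χ rt Q N mid g hQ
  obtain ⟨-, f2, -, f4, -, f6, -⟩ := hFEQ G M g g D D (cz D) θ θ χ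
  have hθ₁ : cjF g θ ∈ IrrOn (cz (cjS g D)) := by
    rw [f2.1]
    exact f4.1 rt.th
  have ind : Induces M (cjF g θ) χ := ((f6 rt.chi).2).2 rt.ind
  obtain ⟨rt₁, _, hyp₁⟩ := hHRC p M hS H hH G D x θ χ rt g (cjF g θ) hθ₁ ind
  have hinf : N ⊓ cz (cjS g D) = cz (cjS g D) := inf_eq_right.2 hczN
  obtain ⟨φ, hφ, hSB⟩ := hEXB p M hS G N (cjS g D) rt₁.dfa.pgrp hDN (cjF g θ) (by rw [hinf]; exact hθ₁)
  obtain ⟨x'', rt₂⟩ := hRTN p M hS G (cjS g D) (g * x * g⁻¹) (cjF g θ) χ rt₁ N hczN φ hφ hSB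
  have hyp₂ := hHRN p M hS H hH G (cjS g D) N rt₁.dfa.pgrp hDN hczN (cjF g θ) hθ₁ (hyp₁ hyp)
  have e := IH _ _ _ _ rt₂ hyp₂
  obtain ⟨e1, -, -, -, -, -, e7⟩ := hECN p c hS.pr G (cjS g D) rt₁.dfa.pgrp rt₁.com
  have t1 := hTRE p M hS G N N le_rfl (cjF g θ) (fun y hy => hθ₁.1 y (fun h => hy (hczN h)))
  have t2 := hTRE p M hS G N (N ⊓ nz (Ec p c (cjS g D))) inf_le_left (cjF g θ)
    (fun y hy => hθ₁.1 y (fun h => hy ⟨hczN h, e7 h⟩))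
  rw [Subgroup.subgroupOf_self] at t1
  rw [e1 N hDN, ((hTR3 p G N).1 (Ec p c (cjS g D)) (Ec_le.trans hDN)).2, IHN5_inf, t2, t1] at e
  exact e

end Pool.Agent.L5
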